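import Pool.Agent.Y271.RO.Stm

/-!
# The vectors in case B of the dichotomy for rank one perturbations of normal operators
-/

set_option autoImplicit false

namespace Pool.Agent.Y941.RO

open MeasureTheory Set Metric Filter Topology
open scoped InnerProductSpace ENNReal NNReal ComplexConjugate ContDiff
open Pool.Agent.Y283.NK (ct IsMul HasHyp)
open Pool.Agent.Y271.RO

section base

variable {S : Type} [MeasurableSpace S] {μ : Measure S} [SigmaFinite μ]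

omit [SigmaFinite μ] in
lemma T1_apply (N : Lp ℂ 2 μ →L[ℂ] Lp ℂ 2 μ) (u v w : Lp ℂ 2 μ) :
    T1 N u v w = N w + ⟪v, w⟫_ℂ • u := by
  simp [T1]

lemma mv_step (hMV : S_MV) {φ : S → ℂ} {N : Lp ℂ 2 μ →L[ℂ] Lp ℂ 2 μ} (hN : IsMul φ N)
    (x : Lp ℂ 2 μ) (h h' : ℂ → ℂ) (M M' : ℝ) (a c : ℂ) (hh : Measurable h) (hM : 0 ≤ M)
    (hb : ∀ s, ‖h (φ s)‖ ≤ M) (hh' : Measurable h') (hM' : 0 ≤ M')
    (hb' : ∀ s, ‖h' (φ s)‖ ≤ M') (he : ∀ l, (l - a) * h l = h' l - c) :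
    N (mv φ x h) - a • mv φ x h = mv φ x h' - c • x := by
  obtain ⟨h1, -, -, -⟩ := hMV S μ φ N hN x h M hh hM hb
  obtain ⟨h2, -, -, -⟩ := hMV S μ φ N hN x h' M' hh' hM' hb'
  have h3 := hN.eq (mv φ x h)
  apply Lp.ext
  filter_upwards [h1, h2, h3, Lp.coeFn_sub (N (mv φ x h)) (a • mv φ x h),
    Lp.coeFn_smul a (mv φ x h), Lp.coeFn_sub (mv φ x h') (c • x), Lp.coeFn_smul c x]
    with s e1 e2 e3 e4 e5 e6 e7
  rw [e4, e6, Pi.sub_apply, Pi.sub_apply, e5, e7, Pi.smul_apply, Pi.smul_apply, e3, e1, e2]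
  simp only [smul_eq_mul]
  have := he (φ s)
  linear_combination x s * this

lemma Kbound (hMV : S_MV) {φ : S → ℂ} {N : Lp ℂ 2 μ →L[ℂ] Lp ℂ 2 μ} (hN : IsMul φ N)
    (v x : Lp ℂ 2 μ) (a : ℂ) (τ : ℝ) (hτ : 0 < τ)
    (hx : ∀ᵐ s ∂μ, φ s ∉ ball a (τ / 2) → x s = 0) (z : ℂ) (hz : τ ≤ ‖z - a‖) :
    ‖ct φ v x z‖ ≤ 2 / τ * (‖v‖ * ‖x‖) := by
  classical
  set h : ℂ → ℂ := (ball a (τ / 2)).indicator (fun w => (z - w)⁻¹) with hh
  have hm : Measurable h := by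
    apply Measurable.indicator _ measurableSet_ball
    fun_prop
  have hb : ∀ w, ‖h w‖ ≤ 2 / τ := by
    intro w
    by_cases hw : w ∈ ball a (τ / 2)
    · rw [hh, indicator_of_mem hw, norm_inv]
      rw [mem_ball, dist_eq_norm] at hw
      have h1 : τ / 2 ≤ ‖z - w‖ := by
        have : ‖z - a‖ ≤ ‖z - w‖ + ‖w - a‖ := by
          have := norm_add_le (z - w) (w - a)
          rwa [sub_add_sub_cancel] at this
        linarith
      calc ‖z - w‖⁻¹ ≤ (τ / 2)⁻¹ := inv_anti₀ (by positivity) h1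
        _ = 2 / τ := by rw [inv_div]
    · rw [hh, indicator_of_notMem hw, norm_zero]
      positivity
  obtain ⟨-, h2, -, h4⟩ := hMV S μ φ N hN x h (2 / τ) hm (by positivity) (fun s => hb _)
  have e : ct φ v x z = ⟪v, mv φ x h⟫_ℂ := by
    rw [h4 v]
    unfold ct
    apply integral_congr_ae
    filter_upwards [hx] with s hs
    by_cases hw : φ s ∈ ball a (τ / 2)
    · rw [hh]
      simp only [indicator_of_mem hw]
      ring
    · rw [hs hw]
      ring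
  rw [e]
  calc ‖⟪v, mv φ x h⟫_ℂ‖ ≤ ‖v‖ * ‖mv φ x h‖ := norm_inner_le_norm _ _
    _ ≤ ‖v‖ * (2 / τ * ‖x‖) := by gcongr
    _ = 2 / τ * (‖v‖ * ‖x‖) := by ring

lemma Y_step (hCTG : S_CTG) (hMV : S_MV) {φ : S → ℂ} {N : Lp ℂ 2 μ →L[ℂ] Lp ℂ 2 μ}
    (hN : IsMul φ N) (u v : Lp ℂ 2 μ) (a : ℂ) (r K : ℝ) (hr : 0 < r) (hK0 : 0 ≤ K)
    (hK : ∀ (c : ℂ) (M : ℝ) (g : ℂ → ℂ), Bd g c r M →
      Integrable g ∧ Measurable (ht g) ∧ (∀ l, Integrable (fun z => g z * (z - l)⁻¹)) ∧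
      (∀ l, ‖ht g l‖ ≤ K * M) ∧
      ∀ b l : ℂ, ht (fun z => (z - b) * g z) l = (l - b) * ht g l + ∫ z, g z)
    (M : ℝ) (h : ℂ → ℂ) (hb : Bd h a r M) :
    Integrable (fun z => h z * ff φ u v z) ∧
    T1 N u v (mv φ u (ht h)) - a • mv φ u (ht h) =
      mv φ u (ht (fun z => (z - a) * h z)) - (∫ z, h z * ff φ u v z) • u ∧
    ‖mv φ u (ht h)‖ ≤ K * M * ‖u‖ := by
  obtain ⟨i1, i2, i3, i4, i5⟩ := hK a M h hb
  have hb' : Bd (fun z => (z - a) * h z) a r (r * M) := by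
    refine ⟨?_, mul_nonneg hr.le hb.nonneg, ?_, ?_⟩
    · exact (measurable_id.sub_const a).mul hb.meas
    · intro z
      rw [norm_mul]
      by_cases hz : z ∈ ball a r
      · rw [mem_ball, dist_eq_norm] at hz
        exact mul_le_mul hz.le (hb.bd z) (norm_nonneg _) hr.le
      · rw [hb.supp z hz, norm_zero, mul_zero]
        exact mul_nonneg hr.le hb.nonneg
    · intro z hz
      rw [hb.supp z hz, mul_zero]
  obtain ⟨j1, j2, j3, j4, j5⟩ := hK a (r * M) _ hb'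
  obtain ⟨-, -, hf⟩ := hCTG S μ φ hN.meas v u
  obtain ⟨f1, f2⟩ := hf a r M h hb
  have hi : ∀ z, h z * ff φ u v z = h z - h z * ct φ v u z := fun z => by
    unfold ff; ring
  obtain ⟨-, m2, -, m4⟩ := hMV S μ φ N hN u (ht h) (K * M) i2 (mul_nonneg hK0 hb.nonneg)
    (fun s => i4 _)
  have hs := mv_step hMV hN u (ht h) (ht (fun z => (z - a) * h z)) (K * M) (K * (r * M)) a
    (∫ z, h z) i2 (mul_nonneg hK0 hb.nonneg) (fun s => i4 _) j2
    (mul_nonneg hK0 hb'.nonneg) (fun s => j4 _) (fun l => by rw [i5 a l]; ring)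
  refine ⟨?_, ?_, m2⟩
  · simp_rw [hi]
    exact i1.sub f1
  · have e1 : ∫ z, h z * ff φ u v z = (∫ z, h z) - ∫ z, h z * ct φ v u z := by
      simp_rw [hi]
      exact integral_sub i1 f1
    have e2 : ⟪v, mv φ u (ht h)⟫_ℂ = ∫ z, h z * ct φ v u z := by
      rw [m4 v, f2]
    rw [T1_apply, e1, e2, sub_smul, add_sub_right_comm, hs]
    abel

end base

/-! ### cut-off functions -/

section cutoff

/-- the properties of a cut-off function -/
structure CO (Θ : ℂ → ℂ) (a : ℂ) (τ r : ℝ) : Prop where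
  smooth : ContDiff ℝ 1 Θ
  one : ∀ z ∈ ball a τ, Θ z = 1
  zero : ∀ z, r ≤ ‖z - a‖ → Θ z = 0

lemma CO.tsup {Θ : ℂ → ℂ} {a : ℂ} {τ r : ℝ} (h : CO Θ a τ r) :
    tsupport Θ ⊆ closedBall a r := by
  apply closure_minimal _ isClosed_closedBall
  intro z hz
  rw [mem_closedBall, dist_eq_norm]
  by_contra hc
  exact hz (h.zero z (not_le.mp hc).le)

lemma CO.cpt {Θ : ℂ → ℂ} {a : ℂ} {τ r : ℝ} (h : CO Θ a τ r) : HasCompactSupport Θ :=
  IsCompact.of_isClosed_subset (isCompact_closedBall a r) (isClosed_tsupport Θ) h.tsup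

lemma CO.db_in (hPOM : S_POM) {Θ : ℂ → ℂ} {a : ℂ} {τ r : ℝ} (h : CO Θ a τ r) (z : ℂ)
    (hz : z ∈ ball a τ) : db Θ z = 0 := by
  apply hPOM.2.2.1
  have : Θ =ᶠ[𝓝 z] fun _ => (1 : ℂ) := by
    filter_upwards [isOpen_ball.mem_nhds hz] with w hw
    exact h.one w hw
  exact this.differentiableAt_iff.mpr (differentiableAt_const _)

lemma CO.db_out (hPOM : S_POM) {Θ : ℂ → ℂ} {a : ℂ} {τ r : ℝ} (h : CO Θ a τ r) (z : ℂ)
    (hz : r < ‖z - a‖) : db Θ z = 0 := by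
  apply hPOM.2.2.2.2.2.2
  intro hc
  have := h.tsup hc
  rw [mem_closedBall, dist_eq_norm] at this
  linarith

lemma CO.db_bdd (hPOM : S_POM) {Θ : ℂ → ℂ} {a : ℂ} {τ r : ℝ} (h : CO Θ a τ r) :
    ∃ M : ℝ, 0 ≤ M ∧ ∀ z, ‖db Θ z‖ ≤ M := by
  have hc : Continuous (db Θ) := hPOM.2.2.2.2.1 Θ h.smooth
  have hs : HasCompactSupport (db Θ) := by
    apply HasCompactSupport.of_support_subset_isCompact (isCompact_closedBall a r)
    intro z hz
    rw [mem_closedBall, dist_eq_norm]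
    by_contra hcc
    exact hz (h.db_out hPOM z (not_le.mp hcc))
  obtain ⟨M, hM⟩ := hc.bounded_above_of_compact_support hs
  exact ⟨M, (norm_nonneg _).trans (hM 0), hM⟩

/-- a measurable function, bounded where it matters, times `∂̄ Θ` -/
lemma CO.bd (hPOM : S_POM) {Θ : ℂ → ℂ} {a : ℂ} {τ r : ℝ} (h : CO Θ a τ r) (P : ℂ → ℂ)
    (hP : Measurable P) (B : ℝ) (hB0 : 0 ≤ B)
    (hB : ∀ z, τ ≤ ‖z - a‖ → ‖z - a‖ ≤ r → ‖P z‖ ≤ B) :
    ∃ M, Bd (fun z => P z * db Θ z) a (r + 1) M := by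
  obtain ⟨M, hM0, hM⟩ := h.db_bdd hPOM
  have hc : Continuous (db Θ) := hPOM.2.2.2.2.1 Θ h.smooth
  refine ⟨B * M, hP.mul hc.measurable, mul_nonneg hB0 hM0, ?_, ?_⟩
  · intro z
    by_cases h1 : z ∈ ball a τ
    · rw [h.db_in hPOM z h1, mul_zero, norm_zero]
      exact mul_nonneg hB0 hM0
    · rw [mem_ball, dist_eq_norm, not_lt] at h1
      by_cases h2 : ‖z - a‖ ≤ r
      · rw [norm_mul]
        exact mul_le_mul (hB z h1 h2) (hM z) (norm_nonneg _) hB0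
      · rw [h.db_out hPOM z (not_le.mp h2), mul_zero, norm_zero]
        exact mul_nonneg hB0 hM0
  · intro z hz
    rw [mem_ball, dist_eq_norm, not_lt] at hz
    show P z * db Θ z = 0
    rw [h.db_out hPOM z (by linarith), mul_zero]

lemma CO.ht_pow (hPOM : S_POM) {Θ : ℂ → ℂ} {a : ℂ} {τ r : ℝ} (h : CO Θ a τ r) (k : ℕ) (l : ℂ) :
    ht (fun z => (z - a) ^ k * db Θ z) l = -(Real.pi * ((l - a) ^ k * Θ l)) := by
  have h1 : (fun z => (z - a) ^ k * db Θ z) = db (fun w => (w - a) ^ k * Θ w) := by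
    funext z
    have hd : DifferentiableAt ℂ (fun w : ℂ => (w - a) ^ k) z := by fun_prop
    have hd' : DifferentiableAt ℝ (fun w : ℂ => (w - a) ^ k) z := hd.restrictScalars ℝ
    rw [hPOM.2.1 (fun w => (w - a) ^ k) Θ z hd'
      ((h.smooth.differentiable (by norm_num)).differentiableAt), hPOM.2.2.1 _ z hd]
    ring
  rw [h1]
  have hs : ContDiff ℝ 1 (fun w : ℂ => (w - a) ^ k * Θ w) := by
    apply ContDiff.mul _ h.smooth
    exact (contDiff_id.sub contDiff_const).pow k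
  exact hPOM.1 _ hs (h.cpt.mul_left) l

lemma CO.ht_inv (hHT : S_HT) (hPOM : S_POM) {Θ : ℂ → ℂ} {a : ℂ} {τ r : ℝ} (h : CO Θ a τ r)
    (hτ : 0 < τ) (hr : 0 < r) (l : ℂ) (hl : l ∈ ball a τ) :
    ht (fun z => (z - a)⁻¹ * db Θ z) l = 0 := by
  obtain ⟨K, hK0, hK⟩ := hHT (r + 1) (by linarith)
  have hb1 : ∀ z, τ ≤ ‖z - a‖ → ‖(z - a)⁻¹‖ ≤ τ⁻¹ := fun z hz => by
    rw [norm_inv]
    exact inv_anti₀ hτ hz
  obtain ⟨M1, hM1⟩ := h.bd hPOM (fun z => (z - a)⁻¹) (by fun_prop) τ⁻¹ (by positivity)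
    (fun z hz _ => hb1 z hz)
  obtain ⟨M2, hM2⟩ := h.bd hPOM (fun z => (z - a)⁻¹ * (z - a)⁻¹) (by fun_prop) (τ⁻¹ * τ⁻¹)
    (by positivity) (fun z hz _ => by
      rw [norm_mul]
      exact mul_le_mul (hb1 z hz) (hb1 z hz) (norm_nonneg _) (by positivity))
  obtain ⟨-, -, -, -, i5⟩ := hK a M1 _ hM1
  obtain ⟨-, -, -, j4, j5⟩ := hK a M2 _ hM2
  have ha : a ∈ ball a τ := mem_ball_self hτ
  have e1 : (fun z => (z - a) * ((z - a)⁻¹ * db Θ z)) = fun z => (z - a) ^ 0 * db Θ z := by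
    funext z
    by_cases hz : z = a
    · rw [hz, h.db_in hPOM a ha]; simp
    · have : z - a ≠ 0 := sub_ne_zero.mpr hz
      field_simp
  have e2 : (fun z => (z - a) * ((z - a)⁻¹ * (z - a)⁻¹ * db Θ z)) =
      fun z => (z - a)⁻¹ * db Θ z := by
    funext z
    by_cases hz : z = a
    · rw [hz, h.db_in hPOM a ha]; simp
    · have : z - a ≠ 0 := sub_ne_zero.mpr hz
      field_simp
  have k1 := fun l => i5 a l
  simp_rw [e1, h.ht_pow hPOM 0, pow_zero, one_mul] at k1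
  have k2 := fun l => j5 a l
  simp_rw [e2] at k2
  have k3 : (∫ z, (z - a)⁻¹ * db Θ z) = -(Real.pi : ℂ) := by
    have := k1 a
    rw [h.one a ha] at this
    simpa using this.symm
  have k4 : ∀ w ∈ ball a τ, w ≠ a → ht (fun z => (z - a)⁻¹ * db Θ z) w = 0 := by
    intro w hw hwa
    have := k1 w
    rw [k3, h.one w hw] at this
    have h3 : (w - a) * ht (fun z => (z - a)⁻¹ * db Θ z) w = 0 := by
      linear_combination -this
    exact (mul_eq_zero.mp h3).resolve_left (sub_ne_zero.mpr hwa)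
  by_cases hla : l = a
  · rw [hla]
    have k5 := k2 a
    rw [sub_self, zero_mul, zero_add] at k5
    rw [k5]
    -- the constant is zero
    rw [← norm_le_zero_iff]
    apply le_of_forall_pos_le_add
    intro ε hε
    have hM2' := hM2.nonneg
    set t : ℝ := min (τ / 2) (ε / (K * M2 + 1)) with ht'
    have ht0 : 0 < t := lt_min (by linarith) (by positivity)
    have hw : a + (t : ℂ) ∈ ball a τ := by
      rw [mem_ball, dist_eq_norm, add_sub_cancel_left, Complex.norm_real, Real.norm_eq_abs,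
        abs_of_pos ht0]
      have := min_le_left (τ / 2) (ε / (K * M2 + 1))
      linarith
    have hwa : a + (t : ℂ) ≠ a := by
      intro hc
      have : (t : ℂ) = 0 := by simpa using hc
      have : t = 0 := by exact_mod_cast this
      linarith
    have k6 := k2 (a + t)
    rw [k4 _ hw hwa, add_sub_cancel_left] at k6
    have k7 : (∫ z, (z - a)⁻¹ * (z - a)⁻¹ * db Θ z) =
        -((t : ℂ) * ht (fun z => (z - a)⁻¹ * (z - a)⁻¹ * db Θ z) (a + t)) := by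
      linear_combination -k6
    rw [k7, norm_neg, norm_mul, Complex.norm_real, Real.norm_eq_abs, abs_of_pos ht0, zero_add]
    have h5 : t * (K * M2 + 1) ≤ ε := by
      have : t ≤ ε / (K * M2 + 1) := min_le_right _ _
      calc t * (K * M2 + 1) ≤ ε / (K * M2 + 1) * (K * M2 + 1) := by gcongr
        _ = ε := by field_simp
    calc t * ‖ht (fun z => (z - a)⁻¹ * (z - a)⁻¹ * db Θ z) (a + t)‖ ≤ t * (K * M2) := by
          gcongr
          exact j4 _
      _ ≤ ε := by nlinarith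
  · exact k4 l hl hla

end cutoff

/-! ### pairings -/

section pair

variable {S : Type} [MeasurableSpace S] {μ : Measure S} [SigmaFinite μ]

lemma pair_pow (hCTG : S_CTG) (hMV : S_MV) (hPOM : S_POM) {φ : S → ℂ}
    {N : Lp ℂ 2 μ →L[ℂ] Lp ℂ 2 μ} (hN : IsMul φ N) (v x : Lp ℂ 2 μ) {Θ : ℂ → ℂ} {a : ℂ}
    {τ r : ℝ} (h : CO Θ a τ r) (hτ : 0 < τ) (hr : 0 < r)
    (hx : ∀ᵐ s ∂μ, φ s ∉ ball a (τ / 2) → x s = 0) (k : ℕ) (χ : ℂ → ℂ) (hχ : Measurable χ)
    (B : ℝ) (hB0 : 0 ≤ B) (hB : ∀ z, ‖χ z‖ ≤ B)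
    (hχe : ∀ z ∈ ball a (τ / 2), χ z = (z - a) ^ k) :
    Integrable (fun z => (z - a) ^ k * db Θ z * ct φ v x z) ∧
      ∫ z, (z - a) ^ k * db Θ z * ct φ v x z = -(Real.pi * ⟪v, mv φ x χ⟫_ℂ) := by
  obtain ⟨M, hM⟩ := h.bd hPOM (fun z => (z - a) ^ k) (by fun_prop) (r ^ k) (by positivity)
    (fun z _ hz => by
      rw [norm_pow]
      exact pow_le_pow_left₀ (norm_nonneg _) hz k)
  obtain ⟨-, -, hf⟩ := hCTG S μ φ hN.meas v x
  obtain ⟨f1, f2⟩ := hf a (r + 1) M _ hM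
  refine ⟨f1, ?_⟩
  obtain ⟨-, -, -, m4⟩ := hMV S μ φ N hN x χ B hχ hB0 (fun s => hB _)
  rw [← f2, m4 v, ← integral_const_mul, ← integral_neg]
  apply integral_congr_ae
  filter_upwards [hx] with s hs
  by_cases hw : φ s ∈ ball a (τ / 2)
  · have hw' : φ s ∈ ball a τ := ball_subset_ball (by linarith) hw
    rw [h.ht_pow hPOM, h.one _ hw', hχe _ hw]
    ring
  · rw [hs hw]
    ring

lemma pair_inv (hHT : S_HT) (hCTG : S_CTG) (hPOM : S_POM) {φ : S → ℂ}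
    {N : Lp ℂ 2 μ →L[ℂ] Lp ℂ 2 μ} (hN : IsMul φ N) (v x : Lp ℂ 2 μ) {Θ : ℂ → ℂ} {a : ℂ}
    {τ r : ℝ} (h : CO Θ a τ r) (hτ : 0 < τ) (hr : 0 < r)
    (hx : ∀ᵐ s ∂μ, φ s ∉ ball a (τ / 2) → x s = 0) :
    Integrable (fun z => (z - a)⁻¹ * db Θ z * ct φ v x z) ∧
      ∫ z, (z - a)⁻¹ * db Θ z * ct φ v x z = 0 := by
  obtain ⟨M, hM⟩ := h.bd hPOM (fun z => (z - a)⁻¹) (by fun_prop) τ⁻¹ (by positivity)
    (fun z hz _ => by
      rw [norm_inv]
      exact inv_anti₀ hτ hz)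
  obtain ⟨-, -, hf⟩ := hCTG S μ φ hN.meas v x
  obtain ⟨f1, f2⟩ := hf a (r + 1) M _ hM
  refine ⟨f1, ?_⟩
  rw [← f2]
  rw [integral_eq_zero_of_ae]
  filter_upwards [hx] with s hs
  by_cases hw : φ s ∈ ball a (τ / 2)
  · have hw' : φ s ∈ ball a τ := ball_subset_ball (by linarith) hw
    rw [h.ht_inv hHT hPOM hτ hr _ hw']
    simp
  · rw [hs hw]
    simp

end pair

lemma lim_int (hPOM : S_POM) {f : ℂ → ℂ} {a : ℂ} {τ r : ℝ} (Θ g : ℕ → ℂ → ℂ)
    (hΘ : ∀ n, CO (Θ n) a τ r) (hg1 : ∀ n, ∀ z ∈ ball a τ, g n z = 0)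
    (hg2 : ∀ n z, r ≤ ‖z - a‖ → g n z = 0)
    (hlim : Tendsto (fun n => ∫⁻ z, ‖f z * g n z - db (Θ n) z‖ₑ) atTop (𝓝 0))
    (P : ℂ → ℂ) (B : ℝ) (hB0 : 0 ≤ B)
    (hB : ∀ z, τ ≤ ‖z - a‖ → ‖z - a‖ ≤ r → ‖P z‖ ≤ B) :
    Tendsto (fun n => ∫ z, P z * (f z * g n z - db (Θ n) z)) atTop (𝓝 0) := by
  rw [tendsto_zero_iff_enorm_tendsto_zero]
  have h0 : Tendsto (fun n => ENNReal.ofReal B * ∫⁻ z, ‖f z * g n z - db (Θ n) z‖ₑ) atTop
      (𝓝 0) := by
    have := ENNReal.Tendsto.const_mul (a := ENNReal.ofReal B) hlim (Or.inr ENNReal.ofReal_ne_top)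
    rwa [mul_zero] at this
  refine tendsto_of_tendsto_of_tendsto_of_le_of_le tendsto_const_nhds h0 (fun _ => bot_le) ?_
  intro n
  calc ‖∫ z, P z * (f z * g n z - db (Θ n) z)‖ₑ
      ≤ ∫⁻ z, ‖P z * (f z * g n z - db (Θ n) z)‖ₑ := enorm_integral_le_lintegral_enorm _
    _ ≤ ∫⁻ z, ENNReal.ofReal B * ‖f z * g n z - db (Θ n) z‖ₑ := by
        apply lintegral_mono
        intro z
        show ‖P z * (f z * g n z - db (Θ n) z)‖ₑ ≤ ENNReal.ofReal B * ‖f z * g n z - db (Θ n) z‖ₑ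
        by_cases h1 : z ∈ ball a τ
        · rw [hg1 n z h1, (hΘ n).db_in hPOM z h1]
          simp
        · rw [mem_ball, dist_eq_norm, not_lt] at h1
          by_cases h2 : ‖z - a‖ ≤ r
          · rw [enorm_mul]
            gcongr
            rw [← ofReal_norm]
            exact ENNReal.ofReal_le_ofReal (hB z h1 h2)
          · rw [hg2 n z (not_le.mp h2).le, (hΘ n).db_out hPOM z (not_le.mp h2)]
            simp
    _ = ENNReal.ofReal B * ∫⁻ z, ‖f z * g n z - db (Θ n) z‖ₑ := by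
        rw [lintegral_const_mul' _ _ ENNReal.ofReal_ne_top]

theorem main (hHT : S_HT) (hCTG : S_CTG) (hMV : S_MV) (hPOM : S_POM) : S_CUTV := by
  intro S _ μ _ φ N hN u v a τ r hτ hτr hcut x hx
  classical
  obtain ⟨Θ, g, C, c1, c2, c3, c4, c5, c6, c7, c8⟩ := hcut
  have hr : 0 < r := hτ.trans hτr
  obtain ⟨K, hK0, hK⟩ := hHT r hr
  have hC0 : 0 ≤ C := (norm_nonneg _).trans (c5 0 0)
  have hΘ : ∀ n, CO (Θ n) a τ r := fun n => ⟨(c1 n).of_le (by exact_mod_cast le_top), c2 n, c3 n⟩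
  obtain ⟨ctm, -, -⟩ := hCTG S μ φ hN.meas v x
  set Kb : ℝ := 2 / τ * (‖v‖ * ‖x‖) with hKb
  have hKb0 : 0 ≤ Kb := by positivity
  have kb : ∀ z, τ ≤ ‖z - a‖ → ‖ct φ v x z‖ ≤ Kb := fun z hz => Kbound hMV hN v x a τ hτ hx z hz
  -- the product of a bounded function with `g n` and `ct φ v x`
  have hbd : ∀ (P : ℂ → ℂ) (B : ℝ), Measurable P → 0 ≤ B →
      (∀ z, τ ≤ ‖z - a‖ → ‖z - a‖ ≤ r → ‖P z‖ ≤ B) → ∀ n,
      Bd (fun z => P z * (g n z * ct φ v x z)) a r (B * (C * Kb)) := by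
    intro P B hP hB0 hB n
    refine ⟨hP.mul ((c4 n).mul ctm), by positivity, ?_, ?_⟩
    · intro z
      by_cases h1 : z ∈ ball a τ
      · rw [c6 n z h1]
        simp only [zero_mul, mul_zero, norm_zero]
        positivity
      · rw [mem_ball, dist_eq_norm, not_lt] at h1
        by_cases h2 : ‖z - a‖ ≤ r
        · rw [norm_mul, norm_mul]
          exact mul_le_mul (hB z h1 h2) (mul_le_mul (c5 n z) (kb z h1) (norm_nonneg _) hC0)
            (by positivity) hB0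
        · rw [c7 n z (not_le.mp h2).le]
          simp only [zero_mul, mul_zero, norm_zero]
          positivity
    · intro z hz
      rw [mem_ball, dist_eq_norm, not_lt] at hz
      show P z * (g n z * ct φ v x z) = 0
      rw [c7 n z hz]
      ring
  have hbp : ∀ k n, Bd (fun z => (z - a) ^ k * (g n z * ct φ v x z)) a r (r ^ k * (C * Kb)) := by
    intro k n
    exact hbd (fun z => (z - a) ^ k) (r ^ k) (by fun_prop) (by positivity)
      (fun z _ hz => by rw [norm_pow]; exact pow_le_pow_left₀ (norm_nonneg _) hz k) n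
  have hbi : ∀ n, Bd (fun z => (z - a)⁻¹ * (g n z * ct φ v x z)) a r (τ⁻¹ * (C * Kb)) := by
    intro n
    exact hbd (fun z => (z - a)⁻¹) τ⁻¹ (by fun_prop) (by positivity)
      (fun z hz _ => by rw [norm_inv]; exact inv_anti₀ hτ hz) n
  -- the powers cut off
  set χ : ℕ → ℂ → ℂ := fun k => (ball a (τ / 2)).indicator (fun z => (z - a) ^ k) with hχ
  have hχm : ∀ k, Measurable (χ k) := fun k => by
    apply Measurable.indicator _ measurableSet_ball
    fun_prop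
  have hχb : ∀ k z, ‖χ k z‖ ≤ r ^ k := by
    intro k z
    by_cases hz : z ∈ ball a (τ / 2)
    · simp only [hχ, indicator_of_mem hz, norm_pow]
      rw [mem_ball, dist_eq_norm] at hz
      exact pow_le_pow_left₀ (norm_nonneg _) (by linarith) k
    · simp only [hχ, indicator_of_notMem hz, norm_zero]
      positivity
  have hχe : ∀ k, ∀ z ∈ ball a (τ / 2), χ k z = (z - a) ^ k := fun k z hz => by
    simp only [hχ, indicator_of_mem hz]
  have hχs : ∀ k l, (l - a) * χ k l = χ (k + 1) l - 0 := by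
    intro k l
    by_cases hz : l ∈ ball a (τ / 2)
    · rw [hχe k l hz, hχe (k + 1) l hz]
      ring
    · simp only [hχ, indicator_of_notMem hz]
      ring
  have hx0 : mv φ x (χ 0) = x := by
    obtain ⟨e, -, -, -⟩ := hMV S μ φ N hN x (χ 0) (r ^ 0) (hχm 0) (by positivity)
      (fun s => hχb 0 _)
    apply Lp.ext
    filter_upwards [e, hx] with s h1 h2
    rw [h1]
    by_cases hz : φ s ∈ ball a (τ / 2)
    · rw [hχe 0 _ hz, pow_zero, one_mul]
    · rw [h2 hz, mul_zero]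
  have hpi : (Real.pi : ℂ) ≠ 0 := by exact_mod_cast Real.pi_ne_zero
  have hpi' : ‖(1 / Real.pi : ℂ)‖ = 1 / Real.pi := by
    rw [norm_div, norm_one, Complex.norm_real, Real.norm_eq_abs, abs_of_pos Real.pi_pos]
  -- integrals against the error
  have herr : ∀ (P : ℂ → ℂ) (B : ℝ), 0 ≤ B →
      (∀ z, τ ≤ ‖z - a‖ → ‖z - a‖ ≤ r → ‖P z‖ ≤ B) →
      Tendsto (fun n => ((1 / Real.pi : ℂ) *
        ∫ z, (P z * ct φ v x z) * (ff φ u v z * g n z - db (Θ n) z)) • u) atTop (𝓝 0) := by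
    intro P B hB0 hB
    have h1 := lim_int hPOM Θ g hΘ c6 c7 c8 (fun z => P z * ct φ v x z) (B * Kb)
      (by positivity) (fun z hz1 hz2 => by
        rw [norm_mul]
        exact mul_le_mul (hB z hz1 hz2) (kb z hz1) (norm_nonneg _) hB0)
    have h2 := (h1.const_mul (1 / Real.pi : ℂ)).smul_const u
    rwa [mul_zero, zero_smul] at h2
  refine ⟨fun n k => mv φ x (χ k) - (1 / Real.pi : ℂ) •
      mv φ u (ht (fun z => (z - a) ^ k * (g n z * ct φ v x z))),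
    fun n => (1 / Real.pi : ℂ) • mv φ u (ht (fun z => (z - a)⁻¹ * (g n z * ct φ v x z))),
    (‖x‖ + 1 / Real.pi * (K * (C * Kb) * ‖u‖)) + 1 / Real.pi * (K * (τ⁻¹ * (C * Kb)) * ‖u‖),
    ?_, ?_, ?_, ?_⟩
  · intro n k
    obtain ⟨-, -, h3⟩ := Y_step hCTG hMV hN u v a r K hr hK0 hK _ _ (hbp k n)
    obtain ⟨-, h4, -, -⟩ := hMV S μ φ N hN x (χ k) (r ^ k) (hχm k) (by positivity)
      (fun s => hχb k _)
    have hrk : 0 < r ^ k := by positivity
    calc _ ≤ ‖mv φ x (χ k)‖ + ‖(1 / Real.pi : ℂ) •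
          mv φ u (ht (fun z => (z - a) ^ k * (g n z * ct φ v x z)))‖ := norm_sub_le _ _
      _ ≤ r ^ k * ‖x‖ + 1 / Real.pi * (K * (r ^ k * (C * Kb)) * ‖u‖) := by
          rw [norm_smul, hpi']
          gcongr
      _ = (‖x‖ + 1 / Real.pi * (K * (C * Kb) * ‖u‖)) * r ^ k := by ring
      _ ≤ _ := by
          have : 0 ≤ 1 / Real.pi * (K * (τ⁻¹ * (C * Kb)) * ‖u‖) := by positivity
          exact mul_le_mul_of_nonneg_right (by linarith) hrk.le
  · intro n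
    obtain ⟨-, -, h3⟩ := Y_step hCTG hMV hN u v a r K hr hK0 hK _ _ (hbi n)
    calc _ ≤ 1 / Real.pi * (K * (τ⁻¹ * (C * Kb)) * ‖u‖) := by
          rw [norm_smul, hpi']
          gcongr
      _ ≤ _ := by
          have : 0 ≤ ‖x‖ + 1 / Real.pi * (K * (C * Kb) * ‖u‖) := by positivity
          linarith
  · intro k
    have hl := herr (fun z => (z - a) ^ k) (r ^ k) (by positivity)
      (fun z _ hz => by rw [norm_pow]; exact pow_le_pow_left₀ (norm_nonneg _) hz k)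
    refine hl.congr (fun n => ?_)
    obtain ⟨i1, i2, -⟩ := Y_step hCTG hMV hN u v a r K hr hK0 hK _ _ (hbp k n)
    obtain ⟨p1, p2⟩ := pair_pow hCTG hMV hPOM hN v x (hΘ n) hτ hr hx k (χ k) (hχm k) (r ^ k)
      (by positivity) (hχb k) (hχe k)
    have e1 : ∫ z, ((z - a) ^ k * ct φ v x z) * (ff φ u v z * g n z - db (Θ n) z) =
        (∫ z, (z - a) ^ k * (g n z * ct φ v x z) * ff φ u v z) +
          Real.pi * ⟪v, mv φ x (χ k)⟫_ℂ := by
      have : ∀ z, ((z - a) ^ k * ct φ v x z) * (ff φ u v z * g n z - db (Θ n) z) =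
          (z - a) ^ k * (g n z * ct φ v x z) * ff φ u v z -
            (z - a) ^ k * db (Θ n) z * ct φ v x z := fun z => by ring
      simp_rw [this]
      rw [integral_sub i1 p1, p2]
      ring
    have e2 := mv_step hMV hN x (χ k) (χ (k + 1)) (r ^ k) (r ^ (k + 1)) a 0 (hχm k)
      (by positivity) (fun s => hχb k _) (hχm (k + 1)) (by positivity) (fun s => hχb (k + 1) _)
      (hχs k)
    have e3 : T1 N u v (mv φ x (χ k)) - a • mv φ x (χ k) =
        mv φ x (χ (k + 1)) + ⟪v, mv φ x (χ k)⟫_ℂ • u := by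
      rw [T1_apply, add_sub_right_comm, e2, zero_smul, sub_zero]
    have e4 : (fun z => (z - a) * ((z - a) ^ k * (g n z * ct φ v x z))) =
        fun z => (z - a) ^ (k + 1) * (g n z * ct φ v x z) := by
      funext z; ring
    rw [e4] at i2
    rw [e1]
    simp only [map_sub, map_smul]
    rw [eq_add_of_sub_eq e3, eq_add_of_sub_eq i2]
    simp only [smul_sub, smul_add, smul_smul, mul_add, add_smul]
    rw [show (1 / Real.pi : ℂ) * (Real.pi * ⟪v, mv φ x (χ k)⟫_ℂ) = ⟪v, mv φ x (χ k)⟫_ℂ by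
      field_simp]
    rw [mul_comm (1 / Real.pi : ℂ) a]
    abel
  · have hl := herr (fun z => (z - a)⁻¹) τ⁻¹ (by positivity)
      (fun z hz _ => by rw [norm_inv]; exact inv_anti₀ hτ hz)
    refine hl.congr (fun n => ?_)
    obtain ⟨i1, i2, -⟩ := Y_step hCTG hMV hN u v a r K hr hK0 hK _ _ (hbi n)
    obtain ⟨p1, p2⟩ := pair_inv hHT hCTG hPOM hN v x (hΘ n) hτ hr hx
    have e1 : ∫ z, ((z - a)⁻¹ * ct φ v x z) * (ff φ u v z * g n z - db (Θ n) z) =
        ∫ z, (z - a)⁻¹ * (g n z * ct φ v x z) * ff φ u v z := by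
      have : ∀ z, ((z - a)⁻¹ * ct φ v x z) * (ff φ u v z * g n z - db (Θ n) z) =
          (z - a)⁻¹ * (g n z * ct φ v x z) * ff φ u v z -
            (z - a)⁻¹ * db (Θ n) z * ct φ v x z := fun z => by ring
      simp_rw [this]
      rw [integral_sub i1 p1, p2, sub_zero]
    have e4 : (fun z => (z - a) * ((z - a)⁻¹ * (g n z * ct φ v x z))) =
        fun z => (z - a) ^ 0 * (g n z * ct φ v x z) := by
      funext z
      by_cases hz : z = a
      · rw [hz, c6 n a (mem_ball_self hτ)]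
        simp
      · have : z - a ≠ 0 := sub_ne_zero.mpr hz
        field_simp
    rw [e4] at i2
    rw [e1]
    simp only [map_smul, hx0]
    rw [eq_add_of_sub_eq i2]
    simp only [smul_sub, smul_add, smul_smul]
    rw [mul_comm (1 / Real.pi : ℂ) a]
    abel

end Pool.Agent.Y941.RO
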